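import Mathlib
import Pool.Agent.V11316.LM3

/-!
# Lehmer's problem and linear combinations of monomials in the roots with a large norm

Let `ε > 0`. Let `f` be an irreducible integer polynomial of degree `n`, let `S` be a finite set of `k`
nonzero complex numbers such that every `x` in `S` is a product of at most `D x` numbers each of which is a
root of `f` or the inverse of a root of `f`, and such that no quotient of two distinct members of `S` is a
root of unity. Let `β = ∑ a_x x` with rational coefficients `a_x`, not all zero. If the geometric mean of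
the absolute values of the conjugates of `β` is at least `√(1 + ε)` times the Euclidean norm of the vector
of the coefficients, then, with a constant `c > 0` which depends only on `ε`,

  `M(f) ≥ min (2, exp (c n / (k (∑ x ∈ S, D x) (log 2k) ^ 4)))`.

For example let `F` be an integer polynomial with `k` terms, of degree at most `n`, and suppose that the
zeros of `f` are neither zero nor roots of unity. If `∏_{f(z) = 0} |F(z)| ≥ (√(1 + ε) ‖F‖₂) ^ n` then
`M(f) ≥ min (2, exp (c / (k ^ 2 (log 2k) ^ 4)))`. So if `M(f)` is small then all resultants of `f` with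
polynomials with few terms are smaller than `(√(1 + ε) ‖F‖₂) ^ n`.

Method: if the mutual heights of the members of `S` are small then the normalized vectors of their
conjugates are nearly orthogonal (the energy inequality of the starting library); the inequality of the
arithmetic and the geometric mean is applied after the removal of the absolute values.
-/

set_option autoImplicit false

open Polynomial Module Finset

namespace Pool.Agent.Results.MP_7ab245_nt.LargeNorms

theorem result (ε : ℝ) (hε : 0 < ε) : ∃ c : ℝ, 0 < c ∧ ∀ f : ℤ[X], Irreducible f →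
    ∀ (S : Finset ℂ) (D : ℂ → ℕ),
    (∀ x ∈ S, x ≠ 0 ∧ ∃ l : List ℂ, l.length ≤ D x ∧
      (∀ z ∈ l, aeval z f = 0 ∨ aeval z⁻¹ f = 0) ∧ x = l.prod) →
    (∀ x ∈ S, ∀ y ∈ S, x ≠ y → ∀ m : ℕ, 0 < m → x ^ m ≠ y ^ m) →
    ∀ a : ℂ → ℚ, (∃ x ∈ S, a x ≠ 0) → ∀ β : ℂ, β = ∑ x ∈ S, (a x : ℂ) * x →
    ((1 + ε) * ∑ x ∈ S, ((a x : ℚ) : ℝ) ^ 2) ^ (minpoly ℚ β).natDegree ≤
      (((minpoly ℚ β).coeff 0 : ℚ) : ℝ) ^ 2 →
    min 2 (Real.exp (c * f.natDegree /
          (S.card * (∑ x ∈ S, (D x : ℝ)) * (Real.log (2 * S.card)) ^ 4))) ≤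
      (f.map (Int.castRingHom ℂ)).mahlerMeasure := by
  classical
  obtain ⟨c, hc, H⟩ := Pool.Agent.V11316.LM.polyA (min ε 1) (lt_min hε one_pos) (min_le_right _ _)
  refine ⟨c, hc, ?_⟩
  intro f hf S D hS htor a ha β hβ hnorm
  have hMf : (f.map (Int.castRingHom ℂ)).mahlerMeasure = Pool.Agent.H388SL.MM f := rfl
  rw [hMf]
  have hC : 0 ≤ ∑ x ∈ S, ((a x : ℚ) : ℝ) ^ 2 := Finset.sum_nonneg fun _ _ => sq_nonneg _
  rcases Pool.Agent.V11316.LM.reduction hf with h | h | ⟨p, hp, hm, hp0, hpM, hpn, hpr⟩
  · exact (min_le_left _ _).trans h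
  · -- `f = ± X`
    exfalso
    have hX : X ∣ f := Polynomial.X_dvd_iff.mpr h
    have hass : Associated X f := irreducible_X.associated_of_dvd hf hX
    have hz : ∀ z : ℂ, aeval z f = 0 → z = 0 := by
      intro z hz
      obtain ⟨w, hw⟩ := hass.symm.dvd
      have h3 := congrArg (aeval z) hw
      rw [map_mul, hz, zero_mul, aeval_X] at h3
      exact h3
    have hone : ∀ x ∈ S, x = 1 := by
      intro x hx
      obtain ⟨hx0, l, -, hl, hxl⟩ := hS x hx
      rcases l with _ | ⟨b, l⟩
      · simpa using hxl
      · exfalso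
        apply hx0
        rw [hxl, List.prod_cons]
        rcases hl b List.mem_cons_self with h4 | h4
        · rw [hz b h4, zero_mul]
        · rw [inv_eq_zero.mp (hz _ h4), zero_mul]
    obtain ⟨x, hx, hax⟩ := ha
    have hS1 : S = {1} := by
      ext w
      rw [Finset.mem_singleton]
      constructor
      · exact hone w
      · rintro rfl
        have := hone x hx
        rw [this] at hx
        exact hx
    rw [hone x hx] at hax
    rw [hS1, Finset.sum_singleton] at hnorm hβ
    rw [mul_one] at hβ
    have hβ2 : β = algebraMap ℚ ℂ (a 1) := by rw [hβ]; rfl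
    rw [hβ2, minpoly.eq_X_sub_C, natDegree_X_sub_C, pow_one, coeff_sub, coeff_X_zero, coeff_C_zero,
      zero_sub] at hnorm
    push_cast at hnorm
    have h5 : 0 < ((a 1 : ℚ) : ℝ) ^ 2 := by
      have : ((a 1 : ℚ) : ℝ) ≠ 0 := by exact_mod_cast hax
      positivity
    nlinarith
  · have h3 := H p hp hm hp0 S D (by
      intro x hx
      obtain ⟨-, l, hl1, hl2, hl3⟩ := hS x hx
      refine ⟨l, hl1, ?_, hl3⟩
      intro z hz
      rw [hpr, hpr]
      exact hl2 z hz) htor a ha β hβ (by
        refine le_trans (pow_le_pow_left₀ ?_ ?_ _) hnorm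
        · have : 0 < min ε 1 := lt_min hε one_pos
          positivity
        · apply mul_le_mul_of_nonneg_right _ hC
          linarith [min_le_left ε 1])
    rw [hpn, hpM] at h3
    exact (min_le_right _ _).trans h3

end Pool.Agent.Results.MP_7ab245_nt.LargeNorms
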