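import Mathlib
import Pool.Agent.V11316.LM3

/-!
# Lehmer's problem and sums of monomials in the roots whose conjugates are small in mean square

Let `ε > 0`. Let `f` be an irreducible integer polynomial of degree `n`, let `S` be a finite set of `k`
nonzero complex numbers such that every `x` in `S` is a product of at most `D x` numbers each of which is a
root of `f` or the inverse of a root of `f`, and such that no quotient of two distinct members of `S` is a
root of unity. Let `β = ∑ a_x x` with rational coefficients `a_x`, not all zero. If the mean of the squares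
of the absolute values of the conjugates of `β` is at most `(1 - ε) ∑ a_x ^ 2`, then, with a constant
`c > 0` which depends only on `ε`,

  `M(f) ≥ min (2, exp (c n / (k (∑ x ∈ S, D x) (log 2k) ^ 4)))`.

For example, if a sum `β` of `k` distinct roots of `f` (no quotient of two of them is a root of unity) has
all its conjugates in a disc of radius `√((1 - ε) k)` then `M(f) ≥ min (2, exp (c n / (k ^ 2 (log 2k) ^ 4)))`;
this holds if `K / L` is an extension of degree `k`, `K` is generated by a root of `f`, and the relative
trace of this root is so small. The case `β = 0` is a theorem of the starting library.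

Method: if the mutual heights of the members of `S` are small then the normalized vectors of their
conjugates are nearly orthogonal (the energy inequality of the starting library), so the mean square of the
conjugates of the normalized linear combination is nearly `∑ a_x ^ 2`; the absolute values are compared with
those of the conjugates of one member of `S` with the smallest `D x`.
-/

set_option autoImplicit false

open Polynomial Module Finset

namespace Pool.Agent.Results.MP_7ab245_nt.SmallMeanSquares

theorem result (ε : ℝ) (hε : 0 < ε) : ∃ c : ℝ, 0 < c ∧ ∀ f : ℤ[X], Irreducible f →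
    ∀ (S : Finset ℂ) (D : ℂ → ℕ),
    (∀ x ∈ S, x ≠ 0 ∧ ∃ l : List ℂ, l.length ≤ D x ∧
      (∀ z ∈ l, aeval z f = 0 ∨ aeval z⁻¹ f = 0) ∧ x = l.prod) →
    (∀ x ∈ S, ∀ y ∈ S, x ≠ y → ∀ m : ℕ, 0 < m → x ^ m ≠ y ^ m) →
    ∀ a : ℂ → ℚ, (∃ x ∈ S, a x ≠ 0) → ∀ β : ℂ, β = ∑ x ∈ S, (a x : ℂ) * x →
    (((minpoly ℚ β).aroots ℂ).map (fun z => ‖z‖ ^ 2)).sum ≤
      (1 - ε) * ((minpoly ℚ β).natDegree * ∑ x ∈ S, ((a x : ℚ) : ℝ) ^ 2) →
    min 2 (Real.exp (c * f.natDegree /
          (S.card * (∑ x ∈ S, (D x : ℝ)) * (Real.log (2 * S.card)) ^ 4))) ≤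
      (f.map (Int.castRingHom ℂ)).mahlerMeasure := by
  classical
  obtain ⟨c, hc, H⟩ := Pool.Agent.V11316.LM.polyC (min ε 1) (lt_min hε one_pos) (min_le_right _ _)
  refine ⟨c, hc, ?_⟩
  intro f hf S D hS htor a ha β hβ hms
  have hMf : (f.map (Int.castRingHom ℂ)).mahlerMeasure = Pool.Agent.H388SL.MM f := rfl
  rw [hMf]
  have hC : 0 ≤ ∑ x ∈ S, ((a x : ℚ) : ℝ) ^ 2 := Finset.sum_nonneg fun _ _ => sq_nonneg _
  rcases Pool.Agent.V11316.LM.reduction hf with h | h | ⟨p, hp, hm, hp0, hpM, hpn, hpr⟩
  · exact (min_le_left _ _).trans h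
  · -- `f = ± X`
    exfalso
    have hX : X ∣ f := Polynomial.X_dvd_iff.mpr h
    have hass : Associated X f := irreducible_X.associated_of_dvd hf hX
    have hz : ∀ z : ℂ, aeval z f = 0 → z = 0 := by
      intro z hz
      obtain ⟨w, hw⟩ := hass.symm.dvd
      have h3 := congrArg (aeval z) hw
      rw [map_mul, hz, zero_mul, aeval_X] at h3
      exact h3
    have hone : ∀ x ∈ S, x = 1 := by
      intro x hx
      obtain ⟨hx0, l, -, hl, hxl⟩ := hS x hx
      rcases l with _ | ⟨b, l⟩
      · simpa using hxl
      · exfalso
        apply hx0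
        rw [hxl, List.prod_cons]
        rcases hl b List.mem_cons_self with h4 | h4
        · rw [hz b h4, zero_mul]
        · rw [inv_eq_zero.mp (hz _ h4), zero_mul]
    obtain ⟨x, hx, hax⟩ := ha
    have hS1 : S = {1} := by
      ext w
      rw [Finset.mem_singleton]
      constructor
      · exact hone w
      · rintro rfl
        have := hone x hx
        rw [this] at hx
        exact hx
    rw [hone x hx] at hax
    rw [hS1, Finset.sum_singleton] at hms hβ
    rw [mul_one] at hβ
    have hβ2 : β = algebraMap ℚ ℂ (a 1) := by rw [hβ]; rfl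
    rw [hβ2, minpoly.eq_X_sub_C, natDegree_X_sub_C, Polynomial.aroots_X_sub_C, Multiset.map_singleton,
      Multiset.sum_singleton] at hms
    have h6 : ‖(algebraMap ℚ ℂ) (a 1)‖ ^ 2 = ((a 1 : ℚ) : ℝ) ^ 2 := by
      rw [eq_ratCast, ← Complex.ofReal_ratCast, Complex.norm_real, Real.norm_eq_abs, sq_abs]
    rw [h6] at hms
    push_cast at hms
    have h5 : 0 < ((a 1 : ℚ) : ℝ) ^ 2 := by
      have : ((a 1 : ℚ) : ℝ) ≠ 0 := by exact_mod_cast hax
      positivity
    nlinarith
  · have h3 := H p hp hm hp0 S D (by
      intro x hx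
      obtain ⟨-, l, hl1, hl2, hl3⟩ := hS x hx
      refine ⟨l, hl1, ?_, hl3⟩
      intro z hz
      rw [hpr, hpr]
      exact hl2 z hz) htor a ha β hβ (by
        refine hms.trans ?_
        apply mul_le_mul_of_nonneg_right _ (by positivity)
        linarith [min_le_left ε 1])
    rw [hpn, hpM] at h3
    exact (min_le_right _ _).trans h3

end Pool.Agent.Results.MP_7ab245_nt.SmallMeanSquares
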