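import Mathlib
import Pool.Agent.V1156.RC.Cyc
import Pool.Agent.V1156.RC.Opt2

/-!
# Lehmer's problem and large resultants with products of cyclotomic polynomials

Let `f` be a monic irreducible integer polynomial of degree `n`, let `b = ∏ m ∈ 𝒟, Φ_m` be a product
of distinct cyclotomic polynomials, of degree `t = ∑ m ∈ 𝒟, φ(m) ≤ n`, and let
`Λ = log |Res(f, b)|`. Then, with `M(f)` the Mahler measure,

* if `Λ ≥ 80 √(n t) (1 + log n)`, then `log M(f) ≥ min (Λ, Λ ^ 2 / (n (1 + log n))) / (1600 t)`;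
* if `M(f) > 1`, no quotient of two distinct zeros of `f` is a root of unity, `𝒟` contains the
  divisors of its elements and `Λ ≥ 200 √(n t)`, then
  `log M(f) ≥ min (1 + log n, (Λ / (200 √(n t))) ^ 4 / (1 + log n) ^ 3)`.

In particular, for `b = X ^ q - 1`: if for some `q ≤ n` the automorphism of the torus of dimension
`n` with characteristic polynomial `f` has at least `exp (200 s √(n q))` points of period `q`,
`s ≥ 1`, then its entropy `log M(f)` is at least `min (1 + log n, s ^ 4 / (1 + log n) ^ 3)`; it is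
at least `1` for `s = (1 + log n) ^ (3/4)`, and larger than Dobrowolski's bound
`c (log log n / log n) ^ 3` as soon as `s` is larger than a multiple of `(log log n) ^ (3/4)`. The
bound is uniform in the period `q`. (Trivially `Λ ≤ n t log 2 + t log M(f)`.)

Method: energy of the conjugates of `α, α ^ 2, …, α ^ k` and of `w` charges on a small circle around
every zero of `b`. The energy of the zeros of `b` is the logarithm of the discriminant of `b`, so it
is nonnegative, and the self-energy of the charges is only of the order `t w ^ 2 log n` (and not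
`t ^ 2 w ^ 2 log n`). One takes `w` of order `√(n k / t)` and `k` of order
`n t (1 + log n) ^ 2 / Λ ^ 2`.
-/

set_option autoImplicit false

open Polynomial

namespace Pool.Agent.Results.MP_7ab245_nt.CyclotomicResultants

/-- The absolute value of the resultant of the monic polynomial `f` and of `b`: the product of
`|b(y)|` over the complex zeros `y` of `f` (with multiplicity). -/
noncomputable def resAbs (f b : ℤ[X]) : ℝ :=
  ((f.map (Int.castRingHom ℂ)).roots.map fun y => ‖aeval y b‖).prod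

/-- No quotient of two distinct zeros of `f` is a root of unity. -/
def Nondegenerate (f : ℤ[X]) : Prop :=
  ∀ z z' : ℂ, aeval z f = 0 → aeval z' f = 0 → z ≠ z' → ∀ j : ℕ, 1 ≤ j → z ^ j ≠ z' ^ j

lemma main (f : ℤ[X]) (hf : Irreducible f) (hfm : f.Monic) (𝒟 : Finset ℕ) (hne : 𝒟.Nonempty)
    (hpos : ∀ m ∈ 𝒟, 0 < m) (n t : ℕ) (hn : n = f.natDegree) (ht : t = ∑ m ∈ 𝒟, Nat.totient m)
    (htn : t ≤ n) :
    (80 * (Real.sqrt (n * t) * (1 + Real.log n)) ≤
        Real.log (resAbs f (∏ m ∈ 𝒟, cyclotomic m ℤ)) →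
      min (Real.log (resAbs f (∏ m ∈ 𝒟, cyclotomic m ℤ)))
        (Real.log (resAbs f (∏ m ∈ 𝒟, cyclotomic m ℤ)) ^ 2 / (n * (1 + Real.log n))) /
          (1600 * t) ≤ Real.log (f.map (Int.castRingHom ℂ)).mahlerMeasure) ∧
    (1 < (f.map (Int.castRingHom ℂ)).mahlerMeasure → Nondegenerate f →
      (∀ m ∈ 𝒟, ∀ d, d ∣ m → d ∈ 𝒟) →
      200 * Real.sqrt (n * t) ≤ Real.log (resAbs f (∏ m ∈ 𝒟, cyclotomic m ℤ)) →
      min (1 + Real.log n) ((Real.log (resAbs f (∏ m ∈ 𝒟, cyclotomic m ℤ)) /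
        (200 * Real.sqrt (n * t))) ^ 4 / (1 + Real.log n) ^ 3) ≤
          Real.log (f.map (Int.castRingHom ℂ)).mahlerMeasure) := by
  classical
  set b : ℤ[X] := ∏ m ∈ 𝒟, cyclotomic m ℤ with hb
  have hbc : b = Pool.Agent.V1156.RC.cycProd 𝒟 := rfl
  set S := Pool.Agent.V1156.RC.cycSet 𝒟 with hS
  have hcard : S.card = t := by rw [ht]; exact Pool.Agent.V1156.RC.cycSet_card
  have ht1 : 1 ≤ t := by
    obtain ⟨m, hm⟩ := hne
    rw [ht]
    have h1 := Finset.single_le_sum (f := fun m => Nat.totient m) (fun _ _ => Nat.zero_le _) hm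
    have h2 := Nat.totient_pos.mpr (hpos m hm)
    exact le_trans h2 h1
  have hSne : S.Nonempty := Finset.card_pos.mp (by omega)
  have hbS := Pool.Agent.V1156.RC.cycProd_map hpos
  have hroots : ∀ s ∈ S, ∃ N : ℕ, 0 < N ∧ s ^ N = 1 := by
    intro s hs
    obtain ⟨m, hm, h1⟩ := (Pool.Agent.V1156.RC.mem_cycSet hpos).mp hs
    exact ⟨m, hpos m hm, h1.pow_eq_one⟩
  have hS1 : ∀ s ∈ S, ‖s‖ = 1 := by
    intro s hs
    obtain ⟨m, hm, h1⟩ := (Pool.Agent.V1156.RC.mem_cycSet hpos).mp hs
    exact h1.norm'_eq_one (hpos m hm).ne'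
  have ht1' : (1:ℝ) ≤ t := by exact_mod_cast ht1
  have hn1 : (1:ℝ) ≤ n := by exact_mod_cast (ht1.trans htn)
  have htn' : (t:ℝ) ≤ n := by exact_mod_cast htn
  set η : ℝ := 1 / (16 * (t : ℝ) ^ 4) with hη
  have ht4 : (1:ℝ) ≤ (t : ℝ) ^ 4 := one_le_pow₀ ht1'
  have hη0 : 0 < η := by positivity
  have hη1 : η ≤ 1 := by
    rw [hη, div_le_one (by positivity)]
    linarith
  have hsep : ∀ s ∈ S, ∀ s' ∈ S, s ≠ s' → η ≤ ‖s - s'‖ := by
    intro s hs s' hs' h
    have := Pool.Agent.V1156.RC.cycSet_sep hpos hs hs' h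
    rw [← ht] at this
    exact this
  have hηl : Real.log (1 / η) ≤ 10 * (1 + Real.log f.natDegree) := by
    rw [← hn, hη, one_div_one_div, Real.log_mul (by norm_num) (by positivity), Real.log_pow]
    have h1 : Real.log 16 ≤ 3 := by
      have : (16:ℝ) = 2 ^ 4 := by norm_num
      rw [this, Real.log_pow]
      have := Real.log_two_lt_d9
      push_cast
      linarith
    have h2 : Real.log t ≤ Real.log n := Real.log_le_log (by linarith) htn'
    have h3 : 0 ≤ Real.log n := Real.log_nonneg hn1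
    push_cast
    linarith
  have hln : 0 ≤ Real.log n := Real.log_nonneg hn1
  -- the values do not vanish
  have hval : 0 < Real.log (resAbs f b) → ∀ z : ℂ, aeval z f = 0 → aeval z b ≠ 0 := by
    intro hpos' z hz h0
    have h1 : resAbs f b = 0 := by
      unfold resAbs
      apply Multiset.prod_eq_zero
      rw [Multiset.mem_map]
      refine ⟨z, ?_, by rw [h0, norm_zero]⟩
      rw [mem_roots ((hfm.map _).ne_zero), IsRoot.def, eval_map]
      exact hz
    rw [h1, Real.log_zero] at hpos'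
    exact lt_irrefl _ hpos'
  refine ⟨fun h => ?_, fun hM hnd hcl h => ?_⟩
  · have hpos' : 0 < Real.log (resAbs f b) := lt_of_lt_of_le (by positivity) h
    refine Pool.Agent.V1156.RC.opt_c1 ht1 htn rfl h fun w hw1 hw2 => ?_
    have h1 := Pool.Agent.V1156.RC.poly_cyc b S hSne hbS hS1 hη0 hη1 hsep f hf hfm hηl 1 w le_rfl
      (Or.inl rfl) hroots (hval hpos') hw1 (by rw [hcard, ← hn, mul_one]; exact hw2)
    rw [hcard, ← hn] at h1
    simp only [Nat.cast_one, mul_one, one_mul, one_pow] at h1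
    exact h1
  · have hpos' : 0 < Real.log (resAbs f b) := lt_of_lt_of_le (by positivity) h
    have hmm : 0 < Real.log (f.map (Int.castRingHom ℂ)).mahlerMeasure := Real.log_pos hM
    exact Pool.Agent.V1156.RC.opt_c3 ht1 htn rfl h hmm.le fun k w hk hw1 hw2 => by
      have h1 := Pool.Agent.V1156.RC.poly_cyc b S hSne hbS hS1 hη0 hη1 hsep f hf hfm hηl k w hk
        (Or.inr ⟨hmm, hnd, fun j hj1 _ => Pool.Agent.V1156.RC.cycProd_dvd hpos hcl j hj1⟩) hroots
        (hval hpos') hw1 (by rw [hcard, ← hn]; exact hw2)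
      rw [hcard, ← hn] at h1
      exact h1

/-- **Lehmer's problem and large resultants with products of cyclotomic polynomials**, with the
special case of `X ^ q - 1`. -/
theorem result :
    (∀ f : ℤ[X], Irreducible f → f.Monic → ∀ 𝒟 : Finset ℕ, 𝒟.Nonempty → (∀ m ∈ 𝒟, 0 < m) →
      ∀ n t : ℕ, n = f.natDegree → t = ∑ m ∈ 𝒟, Nat.totient m → t ≤ n →
      ∀ Λ : ℝ, Λ = Real.log (resAbs f (∏ m ∈ 𝒟, cyclotomic m ℤ)) →
        (80 * (Real.sqrt (n * t) * (1 + Real.log n)) ≤ Λ →
          min Λ (Λ ^ 2 / (n * (1 + Real.log n))) / (1600 * t) ≤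
            Real.log (f.map (Int.castRingHom ℂ)).mahlerMeasure) ∧
        (1 < (f.map (Int.castRingHom ℂ)).mahlerMeasure → Nondegenerate f →
          (∀ m ∈ 𝒟, ∀ d, d ∣ m → d ∈ 𝒟) → 200 * Real.sqrt (n * t) ≤ Λ →
          min (1 + Real.log n) ((Λ / (200 * Real.sqrt (n * t))) ^ 4 / (1 + Real.log n) ^ 3) ≤
            Real.log (f.map (Int.castRingHom ℂ)).mahlerMeasure)) ∧
    ∀ f : ℤ[X], Irreducible f → f.Monic → 1 < (f.map (Int.castRingHom ℂ)).mahlerMeasure →
      Nondegenerate f → ∀ n q : ℕ, n = f.natDegree → 1 ≤ q → q ≤ n → ∀ s : ℝ, 1 ≤ s →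
      Real.exp (200 * (s * Real.sqrt (n * q))) ≤ resAbs f (X ^ q - 1) →
      min (1 + Real.log n) (s ^ 4 / (1 + Real.log n) ^ 3) ≤
        Real.log (f.map (Int.castRingHom ℂ)).mahlerMeasure := by
  constructor
  · intro f hf hfm 𝒟 hne hpos n t hn ht htn Λ hΛ
    rw [hΛ]
    exact main f hf hfm 𝒟 hne hpos n t hn ht htn
  · intro f hf hfm hM hnd n q hn hq hqn s hs h
    have h1 := (main f hf hfm q.divisors ⟨1, Nat.one_mem_divisors.mpr (by omega)⟩
      (fun m hm => Nat.pos_of_mem_divisors hm) n q hn (Nat.sum_totient q).symm hqn).2 hM hnd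
      (fun m hm d hd => by
        rw [Nat.mem_divisors] at hm ⊢
        exact ⟨hd.trans hm.1, hm.2⟩)
    rw [prod_cyclotomic_eq_X_pow_sub_one (by omega) ℤ] at h1
    have h2 := Real.log_le_log (Real.exp_pos _) h
    rw [Real.log_exp] at h2
    have hq' : (1:ℝ) ≤ q := by exact_mod_cast hq
    have hn' : (1:ℝ) ≤ n := by exact_mod_cast hq.trans hqn
    have h3 : 0 < Real.sqrt (n * q) := Real.sqrt_pos.mpr (by positivity)
    have hln : 0 ≤ Real.log n := Real.log_nonneg hn'
    have h4 : 200 * Real.sqrt (n * q) ≤ 200 * (s * Real.sqrt (n * q)) := by nlinarith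
    refine le_trans ?_ (h1 (h4.trans h2))
    refine min_le_min le_rfl (div_le_div_of_nonneg_right ?_ (by positivity))
    refine pow_le_pow_left₀ (by linarith) ?_ 4
    rw [le_div_iff₀ (by positivity)]
    linarith

end Pool.Agent.Results.MP_7ab245_nt.CyclotomicResultants
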