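import Mathlib
import Pool.Agent.H904L2.Final

/-!
# Lehmer's problem: the product of the Mahler measure and the house

For every integer polynomial `f` of degree `n` with leading coefficient `a`, Mahler measure
`M(f) > 1`, and all complex zeros of absolute value at most `R`, where `R ≥ 1`,

  `1 / 640 ≤ log M(f) * (log |a| + n * log R)`.

For a monic `f` this reads `log M(f) * log R ≥ 1 / (640 n)`: the product of the logarithmic Mahler
measure (Lehmer's problem asks for a constant lower bound) and of the logarithm of the house
(the Schinzel-Zassenhaus conjecture, Dimitrov's theorem, is the lower bound `c / n`) is at least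
`c / n`.  Consequences, with absolute constants:

* Lehmer's inequality holds for all polynomials whose zeros have absolute value at most `e ^ (C/n)`:
  `M(f) ≥ e ^ (1 / (640 C))`;
* it holds for all monic `f` such that the maximal height `log⁺ |α|` of a zero is at most `B` times
  the mean of the heights of all the `n` zeros: `log M(f) ≥ 1 / √(640 B)`;
* if `M(f)` is small, `f` has zeros far from the unit circle on the scale `1 / n`: the house is at
  least `exp (1 / (640 n log M(f)))`.
-/

set_option autoImplicit false

open Polynomial

namespace Pool.Agent.Results.MP_7ab245_nt.ProductWithHouse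

theorem result (f : ℤ[X]) (hf : 1 < (f.map (Int.castRingHom ℂ)).mahlerMeasure)
    (R : ℝ) (hR : 1 ≤ R) (hz : ∀ z ∈ (f.map (Int.castRingHom ℂ)).roots, ‖z‖ ≤ R) :
    (1 : ℝ) / 640 ≤ Real.log (f.map (Int.castRingHom ℂ)).mahlerMeasure *
      (Real.log |(f.leadingCoeff : ℝ)| + (f.natDegree : ℝ) * Real.log R) := by
  have hf0 : f ≠ 0 := by
    rintro rfl
    simp at hf
    linarith
  have hlc : f.leadingCoeff ≠ 0 := leadingCoeff_ne_zero.2 hf0
  have hlogR : 0 ≤ Real.log R := Real.log_nonneg hR
  set S : ℝ := ((f.map (Int.castRingHom ℂ)).roots.map fun z => Real.posLog ‖z‖).sum with hS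
  have hS0 : 0 ≤ S := by
    apply Multiset.sum_nonneg
    intro x hx
    obtain ⟨z, -, rfl⟩ := Multiset.mem_map.1 hx
    exact Real.posLog_nonneg
  have hM : Real.log (f.map (Int.castRingHom ℂ)).mahlerMeasure =
      Real.log |(f.leadingCoeff : ℝ)| + S := by
    rw [← logMahlerMeasure_eq_log_MahlerMeasure,
      logMahlerMeasure_eq_log_leadingCoeff_add_sum_log_roots]
    congr 2
    rw [leadingCoeff_map_of_injective (RingHom.injective_int _)]
    simp
  have hL2 : ((f.map (Int.castRingHom ℂ)).roots.map fun z => (Real.posLog ‖z‖) ^ 2).sum ≤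
      Real.log R * S := by
    rw [hS, ← Multiset.sum_map_mul_left]
    apply Multiset.sum_map_le_sum_map
    intro z hzm
    have h1 : Real.posLog ‖z‖ ≤ Real.log R := by
      have h2 : Real.posLog ‖z‖ ≤ Real.posLog R :=
        Real.posLog_le_posLog (norm_nonneg _) (hz z hzm)
      have h3 : Real.posLog R = Real.log R :=
        Real.posLog_eq_log (by rw [abs_of_nonneg (by linarith)]; exact hR)
      rwa [h3] at h2
    have h0 : 0 ≤ Real.posLog ‖z‖ := Real.posLog_nonneg
    nlinarith
  by_cases habs : |f.leadingCoeff| = 1
  · -- the monic case up to sign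
    have key : ∀ g : ℤ[X], g.Monic → 1 < (g.map (Int.castRingHom ℂ)).mahlerMeasure →
        (1 : ℝ) / 640 ≤ (g.natDegree : ℝ) *
          ((g.map (Int.castRingHom ℂ)).roots.map fun z => (Real.posLog ‖z‖) ^ 2).sum := by
      intro g hg hM
      have h1 := H904L2.main g hg hM
      have hd : 0 < g.natDegree := by
        rcases Nat.eq_zero_or_pos g.natDegree with h | h
        · exfalso
          have hg1 : g = 1 := by
            rw [eq_C_of_natDegree_eq_zero h]
            have := hg.coeff_natDegree
            rw [h] at this
            rw [this]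
            simp
          rw [hg1] at hM
          simp at hM
        · exact h
      have hd' : (0 : ℝ) < g.natDegree := by exact_mod_cast hd
      calc (1 : ℝ) / 640 = (g.natDegree : ℝ) * (1 / (640 * (g.natDegree : ℝ))) := by
            field_simp
        _ ≤ _ := mul_le_mul_of_nonneg_left h1 hd'.le
    have hlog : Real.log |(f.leadingCoeff : ℝ)| = 0 := by
      have : |(f.leadingCoeff : ℝ)| = 1 := by exact_mod_cast habs
      rw [this]
      simp
    have hmain : (1 : ℝ) / 640 ≤ (f.natDegree : ℝ) *
        ((f.map (Int.castRingHom ℂ)).roots.map fun z => (Real.posLog ‖z‖) ^ 2).sum := by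
      rcases (abs_eq (by norm_num : (0:ℤ) ≤ 1)).1 habs with h | h
      · exact key f h hf
      · have hneg : (-f).Monic := by
          rw [Monic, leadingCoeff_neg, h]
          norm_num
        have hmap : (-f).map (Int.castRingHom ℂ) = -(f.map (Int.castRingHom ℂ)) := by
          rw [Polynomial.map_neg]
        have h1 := key (-f) hneg (by
          rw [hmap]
          have : (-(f.map (Int.castRingHom ℂ))).mahlerMeasure =
              (f.map (Int.castRingHom ℂ)).mahlerMeasure := by
            rw [← neg_one_mul, mahlerMeasure_mul]
            have : (-1 : ℂ[X]) = C (-1) := by simp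
            rw [this, mahlerMeasure_const]
            simp
          rw [this]
          exact hf)
        rw [hmap, natDegree_neg, roots_neg] at h1
        exact h1
    rw [hM, hlog, zero_add, zero_add]
    have hn : (0 : ℝ) ≤ (f.natDegree : ℝ) := Nat.cast_nonneg _
    calc (1 : ℝ) / 640 ≤ _ := hmain
      _ ≤ (f.natDegree : ℝ) * (Real.log R * S) := mul_le_mul_of_nonneg_left hL2 hn
      _ = S * ((f.natDegree : ℝ) * Real.log R) := by ring
  · -- a leading coefficient of absolute value at least two
    have h2 : (2 : ℤ) ≤ |f.leadingCoeff| := by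
      have h3 : 0 < |f.leadingCoeff| := abs_pos.2 hlc
      omega
    have h3 : (2 : ℝ) ≤ |(f.leadingCoeff : ℝ)| := by exact_mod_cast h2
    have h4 : Real.log 2 ≤ Real.log |(f.leadingCoeff : ℝ)| := Real.log_le_log (by norm_num) h3
    have h5 : (0.69 : ℝ) < Real.log 2 := by
      have := Real.log_two_gt_d9
      linarith
    have h6 : 0 ≤ (f.natDegree : ℝ) * Real.log R := mul_nonneg (Nat.cast_nonneg _) hlogR
    rw [hM]
    nlinarith

end Pool.Agent.Results.MP_7ab245_nt.ProductWithHouse
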